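import Mathlib
import Pool.Agent.Lib.helper14.Flow6

set_option autoImplicit false

namespace Pool.Agent.Results.MP_956d6c_ag.Classify

open MvPolynomial Filter Topology IntermediateField

/-- The field `ℂ(x_0, …, x_n)`. -/
abbrev K (n : ℕ) := FractionRing (MvPolynomial (Fin (n + 1)) ℂ)

/-- The coordinate `x_i`. -/
noncomputable def x {n : ℕ} (i : Fin (n + 1)) : K n :=
  algebraMap (MvPolynomial (Fin (n + 1)) ℂ) (K n) (X i)

/-- The rational map `P / Q`. -/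
noncomputable def rmap {n : ℕ} (P : Fin (n + 1) → MvPolynomial (Fin (n + 1)) ℂ)
    (Q : MvPolynomial (Fin (n + 1)) ℂ) (p : Fin (n + 1) → ℂ) : Fin (n + 1) → ℂ :=
  fun i => eval p (P i) / eval p Q

/-- `P / Q` is a rational projective flow. -/
def IsFlow {n : ℕ} (P : Fin (n + 1) → MvPolynomial (Fin (n + 1)) ℂ)
    (Q : MvPolynomial (Fin (n + 1)) ℂ) : Prop :=
  Q ≠ 0 ∧
  (∃ V : Set ((Fin (n + 1) → ℂ) × ℂ), IsOpen V ∧ V.Nonempty ∧
    ∀ q ∈ V, q.2 ≠ 0 ∧ eval q.1 Q ≠ 0 ∧ eval (q.2 • q.1) Q ≠ 0 ∧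
      eval (((1 - q.2) / q.2) • rmap P Q (q.2 • q.1)) Q ≠ 0 ∧
      (1 - q.2) • rmap P Q q.1 = rmap P Q (((1 - q.2) / q.2) • rmap P Q (q.2 • q.1))) ∧
  (∃ U : Set (Fin (n + 1) → ℂ), IsOpen U ∧ U.Nonempty ∧
    ∀ p ∈ U, Tendsto (fun z : ℂ => z⁻¹ • rmap P Q (z • p)) (𝓝[≠] 0) (𝓝 p))

/-- `σ` is the pull-back of rational functions along `P / Q`. -/
def Pull {n : ℕ} (σ : K n ≃ₐ[ℂ] K n) (P : Fin (n + 1) → MvPolynomial (Fin (n + 1)) ℂ)
    (Q : MvPolynomial (Fin (n + 1)) ℂ) : Prop :=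
  ∀ i, σ (x i) = algebraMap _ (K n) (P i) / algebraMap _ (K n) Q

/-- `ρ l` is the pull-back along the homothety `p ↦ l p`. -/
def Scal {n : ℕ} (ρ : ℂˣ → K n →ₐ[ℂ] K n) : Prop :=
  ∀ l i, ρ l (x i) = algebraMap ℂ (K n) l * x i

/-- Conjugacy by a birational map commuting with all homotheties. -/
def Conj {n : ℕ} (ρ : ℂˣ → K n →ₐ[ℂ] K n) (σ τ : K n ≃ₐ[ℂ] K n) : Prop :=
  ∃ θ : K n ≃ₐ[ℂ] K n, (∀ l f, θ (ρ l f) = ρ l (θ f)) ∧ ∀ f, θ (σ f) = τ (θ f)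

/-- The flow `p ↦ p / (1 + p_n)`. -/
def Lev0 {n : ℕ} (τ : K n ≃ₐ[ℂ] K n) : Prop := ∀ i, τ (x i) = x i / (1 + x (Fin.last n))

/-- `M` and `u` consist of degree-zero functions, `u` is transcendental over `M`, and
`M`, `u`, `x_n` generate the whole field. -/
def Adm {n : ℕ} (ρ : ℂˣ → K n →ₐ[ℂ] K n) (M : IntermediateField ℂ (K n)) (u : K n) : Prop :=
  (∀ l, ∀ z ∈ M, ρ l z = z) ∧ (∀ l, ρ l u = u) ∧ Transcendental M u ∧
    adjoin ℂ ((M : Set (K n)) ∪ {u, x (Fin.last n)}) = ⊤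

/-- The normal form attached to `(N, M, u)`. -/
def Std {n : ℕ} (N : ℕ) (M : IntermediateField ℂ (K n)) (u : K n) (τ : K n ≃ₐ[ℂ] K n) : Prop :=
  (∀ z ∈ M, τ z = z) ∧ τ u = u * (1 + x (Fin.last n)) ^ N ∧
    τ (x (Fin.last n)) = x (Fin.last n) / (1 + x (Fin.last n))

open Pool.Agent.H14Flow

section aux
variable {n : ℕ} {ρ : ℂˣ → K n →ₐ[ℂ] K n}

lemma Scal.hg (h : Scal ρ) (i : Fin (n + 1)) : Hg ρ 1 (xx i) := fun l => by
  rw [zpow_one]; exact h l i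

lemma Scal.u0 (hρ : Scal ρ) (i : Fin (n + 1)) (l : ℂˣ) :
    ρ l (x i / x (Fin.last n)) = x i / x (Fin.last n) := by
  rw [map_div₀, hρ, hρ, mul_div_mul_left _ _ (sc_ne l)]

lemma w0 : x (Fin.last n) ≠ 0 := xx_ne _

lemma pow_ne (c : ℂ) (N : ℕ) (h : (2 : ℂ) ^ N ≠ c) :
    (1 + x (Fin.last n)) ^ N ≠ algebraMap ℂ _ c := fun h0 => by
  have : ((1 + X (Fin.last n)) ^ N : MvPolynomial (Fin (n + 1)) ℂ) = C c := by
    apply IsFractionRing.injective _ (K n)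
    rw [map_pow, map_add, map_one]
    exact h0.trans (IsScalarTower.algebraMap_apply ℂ _ (K n) c)
  have := congrArg (eval fun _ => 1) this
  simp only [map_pow, map_add, map_one, eval_X, eval_C, one_add_one_eq_two] at this
  exact h this

lemma w1 : 1 + x (Fin.last n) ≠ 0 := by simpa using pow_ne (n := n) 0 1 (by norm_num)

lemma adm_gen {M : IntermediateField ℂ (K n)} {u : K n} (h : Adm ρ M u)
    (E : IntermediateField ℂ (K n)) (h1 : x (Fin.last n) ∈ E) (h2 : u ∈ E) (h3 : M ≤ E) :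
    E = ⊤ := by
  rw [eq_top_iff, ← h.2.2.2, adjoin_le_iff]
  rintro z (hz | rfl | rfl)
  exacts [h3 hz, h2, h1]

lemma s1 {τ : K n ≃ₐ[ℂ] K n} (h : τ (x (Fin.last n)) = x (Fin.last n) / (1 + x (Fin.last n))) :
    τ (x (Fin.last n))⁻¹ = (x (Fin.last n))⁻¹ + 1 := by
  have := w0 (n := n)
  rw [map_inv₀, h]; field_simp

lemma s2 (hρ : Scal ρ) : Hg ρ (-1) (x (Fin.last n))⁻¹ := fun l => by
  rw [map_inv₀, hρ l, mul_inv, zpow_neg_one]

lemma dat (hρ : Scal ρ) {N : ℕ} {M : IntermediateField ℂ (K n)} {u : K n} {τ : K n ≃ₐ[ℂ] K n}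
    (h : Adm ρ M u) (h' : Std N M u τ) :
    Dat (τ : K n →ₐ[ℂ] K n) ρ N M (u * x (Fin.last n) ^ N) (x (Fin.last n))⁻¹ := by
  have a0 := w0 (n := n)
  have a1 := w1 (n := n)
  refine ⟨h'.1, h.1, mul_ne_zero ?_ (pow_ne_zero _ a0), ?_, fun l => ?_, s1 h'.2.2, s2 hρ,
    fun E h1 h2 h3 => ?_⟩
  · rintro rfl; exact h.2.2.1 isAlgebraic_zero
  · show τ _ = _
    rw [map_mul, map_pow, h'.2.1, h'.2.2, div_pow]; field_simp
  · rw [map_mul, map_pow, h.2.1, hρ l, mul_pow, zpow_natCast]; ring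
  · have h4 : x (Fin.last n) ∈ E := by simpa using inv_mem h1
    exact adm_gen h E h4 (by simpa [a0] using div_mem h2 (pow_mem h4 N)) h3

lemma deg0 (hρ : Scal ρ) (E : IntermediateField ℂ (K n)) (h : ∀ i, x i / x (Fin.last n) ∈ E)
    {f : K n} (hf : ∀ l, ρ l f = f) : f ∈ E := by
  let E0 : IntermediateField ℂ (K n) := adjoin ℂ (Set.range fun i => x i / x (Fin.last n))
  have h0 : E0 ≤ E := by rw [adjoin_le_iff]; rintro _ ⟨i, rfl⟩; exact h i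
  have h1 : ∀ l, ∀ z ∈ E0, ρ l z = z := fun l z hz => by
    have : E0 ≤ EqF (ρ l) (AlgHom.id ℂ _) := by
      rw [adjoin_le_iff]; rintro _ ⟨i, rfl⟩
      exact mem_EqF.2 (hρ.u0 i l)
    exact mem_EqF.1 (this hz)
  have ht := top_of (((↥E0)⟮x (Fin.last n)⟯).restrictScalars ℂ) fun i => by
    have g1 : x i / x (Fin.last n) ∈ (↥E0)⟮x (Fin.last n)⟯ :=
      IntermediateField.algebraMap_mem _ (⟨_, subset_adjoin _ _ ⟨i, rfl⟩⟩ : E0)
    have := mul_mem g1 (mem_adjoin_simple_self E0 (x (Fin.last n)))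
    rwa [div_mul_cancel₀ _ w0] at this
  exact h0 (inv_mem_of E0 h1 w0 (hρ.hg _) (ht.ge mem_top) fun l => by simpa using hf l)

lemma fix0 (hρ : Scal ρ) (τ : K n ≃ₐ[ℂ] K n)
    (h : ∀ i, τ (x i / x (Fin.last n)) = x i / x (Fin.last n)) {f : K n} (hf : ∀ l, ρ l f = f) :
    τ f = f := mem_EqF.1 (deg0 hρ (EqF (τ : K n →ₐ[ℂ] K n) (AlgHom.id ℂ _)) h hf)

lemma lev0_fix {τ : K n ≃ₐ[ℂ] K n} (h : Lev0 τ) (i : Fin (n + 1)) :
    τ (x i / x (Fin.last n)) = x i / x (Fin.last n) := by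
  rw [map_div₀, h, h, div_div_div_cancel_right₀ w1]

lemma partA (hρ : Scal ρ) (P : Fin (n + 1) → MvPolynomial (Fin (n + 1)) ℂ)
    (Q : MvPolynomial (Fin (n + 1)) ℂ) (h : IsFlow P Q) :
    ∃ σ, Pull σ P Q ∧ (σ = AlgEquiv.refl ∨ ∃ τ, Conj ρ σ τ ∧
      (Lev0 τ ∨ ∃ N M u, 1 ≤ N ∧ Adm ρ M u ∧ Std N M u τ)) := by
  by_cases hN : ∀ i, P i = X i * Q
  · exact ⟨AlgEquiv.refl, fun i => by
      rw [hN, map_mul, mul_div_cancel_right₀ _ (am_ne h.1)]; rfl, Or.inl rfl⟩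
  obtain ⟨σ, s, hσ, hs, hs', hE⟩ :=
    flow_structure P Q _ h.1 (fun _ => rfl) hN h.2.1 h.2.2 ρ hρ.hg
  refine ⟨σ, hσ, Or.inr ?_⟩
  have s0 : s ≠ 0 := by rintro rfl; simp at hs
  have s1 : s + 1 ≠ 0 := by rw [← hs]; exact (map_ne_zero _).2 s0
  have a0 := w0 (n := n)
  have hw : Hg ρ 1 s⁻¹ := fun l => by rw [map_inv₀, hs' l]; simp [mul_comm]
  have u0 : ∀ i l, ρ l (x i / x (Fin.last n)) = x i / x (Fin.last n) := hρ.u0
  obtain ⟨θ, hθ⟩ := mkHom (fun i => x i / x (Fin.last n) * s⁻¹) (top_of _ fun i => by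
    set E := adjoin ℂ (Set.range fun i => x i / x (Fin.last n) * s⁻¹)
    have g1 : ∀ j, x j / x (Fin.last n) * s⁻¹ ∈ E := fun j => subset_adjoin _ _ ⟨j, rfl⟩
    have g2 : s⁻¹ ∈ E := by simpa [a0] using g1 (Fin.last n)
    have g3 := deg0 hρ E (fun j => by simpa [s0] using div_mem (g1 j) g2)
      (f := xx i / s⁻¹) fun l => by simpa using hg_div (hρ.hg i) hw l
    simpa [s0] using mul_mem g3 g2)
  have hθ' : ∀ i, θ (x i) = x i / x (Fin.last n) * s⁻¹ := hθ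
  have tw : θ (x (Fin.last n)) = s⁻¹ := by rw [hθ', div_self a0, one_mul]
  have tf : ∀ f, (∀ l, ρ l f = f) → θ f = f := fun f => fix0 hρ θ fun i => by
    rw [map_div₀, tw, hθ']; field_simp
  have tc : ∀ l f, θ (ρ l f) = ρ l (θ f) := fun l =>
    hom_ext (τ := (θ : K n →ₐ[ℂ] K n).comp (ρ l)) (τ' := (ρ l).comp θ) fun j => by
      show θ (ρ l (x j)) = ρ l (θ (x j))
      rw [hρ l, map_mul, AlgEquiv.commutes, hθ', map_mul, u0, hw l, zpow_one]; ring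
  have t1 : 1 + s⁻¹ = (s + 1) / s := by field_simp
  refine ⟨θ.trans (σ.trans θ.symm), ⟨θ.symm, fun l f => ?_, fun f => by simp⟩, ?_⟩
  · rw [θ.symm_apply_eq, tc, θ.apply_symm_apply]
  obtain ⟨N, a, b0, b1, b2, b3, ha⟩ := level_gen (σ := (σ : K n →ₐ[ℂ] K n)) hE
  by_cases hN : N = 0
  · refine Or.inl fun i => ?_
    have ht := ha (((↥(MM (σ : K n →ₐ[ℂ] K n) ρ))⟮s⁻¹⟯).restrictScalars ℂ)
      (by simpa using inv_mem (mem_adjoin_simple_self (MM (σ : K n →ₐ[ℂ] K n) ρ) s⁻¹))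
      (by rw [b3 hN]; exact one_mem _)
      (fun z hz => IntermediateField.algebraMap_mem ((↥(MM (σ : K n →ₐ[ℂ] K n) ρ))⟮s⁻¹⟯)
        (⟨z, hz⟩ : MM (σ : K n →ₐ[ℂ] K n) ρ))
    have : σ (x i / x (Fin.last n)) = x i / x (Fin.last n) :=
      (mem_MM.1 (inv_mem_of (MM (σ : K n →ₐ[ℂ] K n) ρ) (fun l z hz => (mem_MM.1 hz).2 l)
        (inv_ne_zero s0) hw (ht.ge mem_top) fun l => by simpa using u0 i l)).1
    rw [AlgEquiv.trans_apply, AlgEquiv.trans_apply, θ.symm_apply_eq, map_div₀ θ, map_add, map_one,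
      tw, hθ', map_mul, this, map_inv₀, hs, t1]
    field_simp
  · have D : Dat (σ : K n →ₐ[ℂ] K n) ρ N (MM (σ : K n →ₐ[ℂ] K n) ρ) a s :=
      ⟨fun z hz => (mem_MM.1 hz).1, fun l z hz => (mem_MM.1 hz).2 l, b0, b1, b2, hs, hs', ha⟩
    have hu : ∀ l, ρ l (a * s ^ N) = a * s ^ N := fun l => by
      have := sc_ne (K := K n) l
      rw [map_mul, map_pow, b2 l, hs' l, zpow_natCast, zpow_neg_one, mul_pow, inv_pow]
      field_simp
    have b1' : σ a = a := b1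
    refine Or.inr ⟨N, MM (σ : K n →ₐ[ℂ] K n) ρ, a * s ^ N, by omega, ⟨D.hM', hu, ?_, ?_⟩,
      fun z hz => ?_, ?_, ?_⟩
    · rintro ⟨p, hp, h1⟩
      have h2 : Polynomial.aeval
          (X 0 * X 1 ^ N : MvPolynomial (Fin 2) (MM (σ : K n →ₐ[ℂ] K n) ρ)) p = 0 :=
        algebraicIndependent_iff.1 (D.indep hN) _
          (by rw [← Polynomial.aeval_algHom_apply]; simpa using h1)
      have := congrArg (aeval (R := MM (σ : K n →ₐ[ℂ] K n) ρ)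
        ![(Polynomial.X : Polynomial (MM (σ : K n →ₐ[ℂ] K n) ρ)), 1]) h2
      rw [← Polynomial.aeval_algHom_apply] at this
      exact hp (by simpa using this)
    · set E := adjoin ℂ ((MM (σ : K n →ₐ[ℂ] K n) ρ : Set (K n)) ∪ {a * s ^ N, x (Fin.last n)})
      have g1 : s ∈ E.map (θ : K n →ₐ[ℂ] K n) := by
        have : s⁻¹ ∈ E.map (θ : K n →ₐ[ℂ] K n) := ⟨_, subset_adjoin _ _ (by simp), tw⟩
        simpa using inv_mem this
      have g2 : a * s ^ N ∈ E.map (θ : K n →ₐ[ℂ] K n) := ⟨_, subset_adjoin _ _ (by simp), tf _ hu⟩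
      have := ha _ g1 (by simpa [s0] using div_mem g2 (pow_mem g1 N))
        fun z hz => ⟨z, subset_adjoin _ _ (Or.inl hz), tf z (mem_MM.1 hz).2⟩
      refine eq_top_iff.2 fun f _ => ?_
      obtain ⟨g, hg, e⟩ := this.ge (mem_top (x := θ f))
      exact θ.injective e ▸ hg
    · rw [AlgEquiv.trans_apply, AlgEquiv.trans_apply, θ.symm_apply_eq, tf z (mem_MM.1 hz).2]
      exact (mem_MM.1 hz).1
    · rw [AlgEquiv.trans_apply, AlgEquiv.trans_apply, θ.symm_apply_eq, map_mul θ (a * s ^ N),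
        tf _ hu, map_pow, map_add, map_one, tw, t1, map_mul, map_pow, b1', hs, div_pow]
      field_simp
    · rw [AlgEquiv.trans_apply, AlgEquiv.trans_apply, θ.symm_apply_eq, map_div₀, map_add, map_one,
        tw, t1, map_inv₀, hs]
      field_simp

lemma back (E : IntermediateField ℂ (K n)) (h : x (Fin.last n) / (1 + x (Fin.last n)) ∈ E) :
    1 + x (Fin.last n) ∈ E := by
  have := w1 (n := n)
  have e : 1 + x (Fin.last n) = (1 - x (Fin.last n) / (1 + x (Fin.last n)))⁻¹ := by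
    field_simp; ring
  rw [e]; exact inv_mem (sub_mem (one_mem _) h)

lemma partB0 : ∃ τ : K n ≃ₐ[ℂ] K n, Lev0 τ :=
  mkHom (fun i => x i / (1 + x (Fin.last n))) (top_of _ fun i => by
    have g1 : ∀ j, x j / (1 + x (Fin.last n)) ∈
        adjoin ℂ (Set.range fun i => x i / (1 + x (Fin.last n))) := fun j =>
      subset_adjoin _ _ ⟨j, rfl⟩
    have := mul_mem (g1 i) (back _ (g1 _))
    rwa [div_mul_cancel₀ _ w1] at this)

lemma partB (hρ : Scal ρ) (N : ℕ) {M : IntermediateField ℂ (K n)} {u : K n} (h : Adm ρ M u) :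
    ∃ τ, Std N M u τ := by
  have i1 : AlgebraicIndependent M ![u, x (Fin.last n)] := indep_two M h.2.2.1
    (trans_hom (((↥M)⟮u⟯).restrictScalars ℂ)
      (fun l z hz => fix_adjoin (σ := ρ l) M (h.1 l) (h.2.1 l) z hz) one_ne_zero w0 (hρ.hg _))
  have g2 : ∀ E : IntermediateField ℂ (K n), x (Fin.last n) / (1 + x (Fin.last n)) ∈ E →
      u * (1 + x (Fin.last n)) ^ N ∈ E → M ≤ E → E = ⊤ := fun E h1 h2 h3 => by
    have h4 := back E h1
    refine adm_gen h E (by simpa using sub_mem h4 (one_mem _)) ?_ h3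
    simpa [w1] using div_mem h2 (pow_mem h4 N)
  have i2 : AlgebraicIndependent M
      ![u * (1 + x (Fin.last n)) ^ N, x (Fin.last n) / (1 + x (Fin.last n))] := by
    set y := ![u * (1 + x (Fin.last n)) ^ N, x (Fin.last n) / (1 + x (Fin.last n))]
    have ht := g2 ((adjoin M (Set.range y)).restrictScalars ℂ) (subset_adjoin M _ ⟨1, rfl⟩)
      (subset_adjoin M _ ⟨0, rfl⟩)
      fun z hz => IntermediateField.algebraMap_mem (adjoin M (Set.range y)) (⟨z, hz⟩ : M)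
    have h1 : Algebra.IsAlgebraic (adjoin M (Set.range y)) (K n) :=
      ⟨fun f => isAlgebraic_algebraMap (⟨f, ht.ge mem_top⟩ : adjoin M (Set.range y))⟩
    have h2 := IntermediateField.isAlgebraic_adjoin_iff_top.1 h1
    exact (Algebra.IsAlgebraic.isTranscendenceBasis_of_le_trdeg_of_finite M y
      i1.cardinalMk_le_trdeg).1
  obtain ⟨τ, t1, t2, t3⟩ := ext_iso AlgEquiv.refl i1 i2 (adm_gen h) g2
  exact ⟨τ, fun z hz => t1 ⟨z, hz⟩, t2, t3⟩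

lemma partC (hρ : Scal ρ) (τ : K n ≃ₐ[ℂ] K n)
    (h : Lev0 τ ∨ ∃ N M u, Adm ρ M u ∧ Std N M u τ) : ∃ P Q, IsFlow P Q ∧ Pull τ P Q := by
  obtain ⟨P, Q, hQ, hP⟩ := common_denom fun i => τ (x i)
  have hs : τ (x (Fin.last n))⁻¹ = (x (Fin.last n))⁻¹ + 1 := by
    rcases h with h | ⟨N, M, u, -, h⟩
    exacts [s1 (h _), s1 h.2.2]
  have hE : ∀ E : IntermediateField ℂ (K n), (x (Fin.last n))⁻¹ ∈ E →
      (∀ d h, (τ : K n →ₐ[ℂ] K n) h = h → Hg ρ d h → h ∈ E) → E = ⊤ := by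
    intro E h1 h2
    rcases h with h | ⟨N, M, u, h, h'⟩
    · refine top_of E fun i => ?_
      have := div_mem (h2 0 _ (lev0_fix h i) (hg_div (hρ.hg i) (hρ.hg _))) h1
      rwa [div_inv_eq_mul, div_mul_cancel₀ (x i) w0] at this
    · have D := dat hρ h h'
      exact D.gen E h1 (h2 _ _ D.a1 D.a2) fun z hz =>
        h2 0 z (D.hM z hz) fun l => by simpa using D.hM' l z hz
  exact ⟨P, Q, ⟨hQ, transl_conv (σ := τ) hρ.hg hs (s2 hρ) hE P Q hQ hP _ fun _ => rfl,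
    bound_conv (σ := τ) hρ.hg hs (s2 hρ) hE P Q hQ hP _ fun _ => rfl⟩, hP⟩

lemma partD (hρ : Scal ρ) (hn : 1 ≤ n) :
    Adm ρ (adjoin ℂ {f | ∃ i, i ≠ 0 ∧ f = x i / x (Fin.last n)}) (x 0 / x (Fin.last n)) := by
  have hl : Fin.last n ≠ 0 := fun h => by have := congrArg Fin.val h; simp at this; omega
  have fx : ∀ τ : K n →ₐ[ℂ] K n, (∀ i, i ≠ 0 → τ (x i / x (Fin.last n)) = x i / x (Fin.last n)) →
      ∀ z ∈ adjoin ℂ {f | ∃ i, i ≠ 0 ∧ f = x i / x (Fin.last n)}, τ z = z := fun τ h z hz => by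
    have : adjoin ℂ {f | ∃ i, i ≠ 0 ∧ f = x i / x (Fin.last n)} ≤ EqF τ (AlgHom.id ℂ _) := by
      rw [adjoin_le_iff]; rintro _ ⟨i, hi, rfl⟩; exact mem_EqF.2 (h i hi)
    exact mem_EqF.1 (this hz)
  have : ∀ l : ℂˣ, ∃ τ : K n ≃ₐ[ℂ] K n, ∀ i, τ (x i) = if i = 0 then sc _ l * x i else x i :=
    fun l => mkHom _ (top_of _ fun i => by
      have h : (if i = 0 then sc _ l * x i else x i) ∈ adjoin ℂ (Set.range fun i : Fin (n + 1) =>
          if i = 0 then sc _ l * x i else x i) := subset_adjoin _ _ ⟨i, rfl⟩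
      split_ifs at h
      · have := mul_mem (inv_mem (IntermediateField.algebraMap_mem _ (l : ℂ))) h
        rwa [inv_mul_cancel_left₀ (sc_ne l)] at this
      · exact h)
  choose τ hτ using this
  refine ⟨fun l => fx _ fun i _ => hρ.u0 i l, hρ.u0 0,
    trans_hom (ρ := fun l => τ l) _ (fun l => fx _ fun i hi => ?_) one_ne_zero
      (div_ne_zero (xx_ne 0) w0) fun l => ?_, top_of _ fun i => ?_⟩
  · show τ l _ = _
    rw [map_div₀, hτ, hτ, if_neg hi, if_neg hl]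
  · show τ l _ = _
    rw [map_div₀, hτ, hτ, if_pos rfl, if_neg hl, mul_div_assoc]; simp
  · set E := adjoin ℂ (((adjoin ℂ {f | ∃ i, i ≠ 0 ∧ f = x i / x (Fin.last n)} :
      IntermediateField ℂ (K n)) : Set (K n)) ∪ {x 0 / x (Fin.last n), x (Fin.last n)})
    have g1 : x i / x (Fin.last n) ∈ E := by
      by_cases hi : i = 0
      · exact subset_adjoin _ _ (Or.inr (Or.inl (by rw [hi])))
      · exact subset_adjoin _ _ (Or.inl (subset_adjoin _ _ ⟨i, hi, rfl⟩))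
    have := mul_mem g1 (subset_adjoin _ _ (Or.inr (Or.inr rfl)) : x (Fin.last n) ∈ E)
    rwa [div_mul_cancel₀ (x i) w0] at this

end aux

theorem result (n : ℕ) : (∃ ρ : ℂˣ → K n →ₐ[ℂ] K n, Scal ρ) ∧
    ∀ ρ : ℂˣ → K n →ₐ[ℂ] K n, Scal ρ →
      (∀ P Q, IsFlow P Q → ∃ σ, Pull σ P Q ∧ (σ = AlgEquiv.refl ∨ ∃ τ, Conj ρ σ τ ∧
        (Lev0 τ ∨ ∃ N M u, 1 ≤ N ∧ Adm ρ M u ∧ Std N M u τ))) ∧
      (∃ τ : K n ≃ₐ[ℂ] K n, Lev0 τ) ∧
      (∀ N M u, Adm ρ M u → ∃ τ, Std N M u τ) ∧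
      (∀ τ, (Lev0 τ ∨ ∃ N M u, Adm ρ M u ∧ Std N M u τ) → ∃ P Q, IsFlow P Q ∧ Pull τ P Q) ∧
      (∀ N N' M M' u u' τ τ', 1 ≤ N → 1 ≤ N' → Adm ρ M u → Adm ρ M' u' → Std N M u τ →
        Std N' M' u' τ' → (Conj ρ τ τ' ↔ N = N' ∧ Nonempty (M ≃ₐ[ℂ] M'))) ∧
      (∀ N M u τ τ', 1 ≤ N → Adm ρ M u → Std N M u τ → Lev0 τ' → ¬ Conj ρ τ τ') ∧
      (1 ≤ n → Adm ρ (adjoin ℂ {f | ∃ i, i ≠ 0 ∧ f = x i / x (Fin.last n)})
        (x 0 / x (Fin.last n))) ∧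
      (n = 2 → ∀ M u, Adm ρ M u → Nonempty (RatFunc ℂ ≃ₐ[ℂ] M)) := by
  refine ⟨?_, fun ρ hρ => ⟨partA hρ, partB0, fun N M u => partB hρ N, partC hρ,
    fun N N' M M' u u' τ τ' h1 h2 h3 h4 h5 h6 =>
      conj_iff (dat hρ h3 h5) (dat hρ h4 h6) (by omega) (by omega), ?_, partD hρ, ?_⟩⟩
  · obtain ⟨ρ, h⟩ := exists_rho (ι := Fin (n + 1))
    exact ⟨ρ, fun l i => (h i l).trans (by rw [zpow_one]; rfl)⟩
  · rintro N M u τ τ' h1 h2 h3 h4 ⟨θ, t1, t2⟩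
    have := t2 u
    rw [fix0 hρ τ' (lev0_fix h4) (fun l => by rw [← t1, h2.2.1]), θ.injective.eq_iff, h3.2.1,
      mul_right_eq_self₀] at this
    rcases this with h | rfl
    · refine pow_ne 1 N ?_ (by simpa using h)
      exact_mod_cast (Nat.one_lt_two_pow (by omega)).ne'
    · exact h2.2.2.1 isAlgebraic_zero
  · rintro rfl M u h
    obtain ⟨τ, h'⟩ := partB hρ 1 h
    have D := dat hρ h h'
    have ht := trdeg_MM M D.hM D.hM' one_ne_zero D.a0 D.a1 D.a2 D.s1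
    rw [trdeg_KK, Cardinal.mk_fin] at ht
    obtain ⟨v, hv, hM⟩ := igusa M (by
      have : ((2 + 1 : ℕ) : Cardinal) = 1 + (2 : ℕ) := by norm_num
      rw [this] at ht
      exact (Cardinal.add_nat_le_add_nat_iff 2).1 ht)
    obtain ⟨θ, hθ⟩ := mkHom ![v, u, x (Fin.last 2)] (adm_gen h _ (subset_adjoin _ _ ⟨2, rfl⟩)
      (subset_adjoin _ _ ⟨1, rfl⟩)
      (hM.trans (adjoin_simple_le_iff.2 (subset_adjoin _ _ ⟨0, rfl⟩))))
    have hv' : Transcendental ℂ v := by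
      have e : θ (xx 0) = v := hθ 0
      rw [← e]
      intro h0
      refine MvPolynomial.transcendental_X ℂ (0 : Fin 3) ?_
      have h1 : IsAlgebraic ℂ (xx (0 : Fin 3)) := by simpa using h0.algHom θ.symm.toAlgHom
      exact (isAlgebraic_algebraMap_iff (IsFractionRing.injective _ _)).1 h1
    exact ⟨(RatFunc.algEquivOfTranscendental v hv').trans
      (equivOfEq (le_antisymm (adjoin_simple_le_iff.2 hv) hM))⟩

end Pool.Agent.Results.MP_956d6c_ag.Classify
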